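import Pool.Agent.MP_515557_an.H11.MDefs

/-! The area swept by a family of disjoint, nearly horizontal segments. -/

set_option autoImplicit false

open MeasureTheory Set Metric Filter Topology
open scoped ENNReal

namespace Pool.Agent.MP_515557_an.H93

open Pool.Agent.MP_515557_an.H11.Mono

/-- Four point inequality on the line. -/
theorem four_point {α : Type*} (F G H : α → ℝ) (a b : ℝ) (u1 u2 u3 u4 : α)
    (h1 : a ≤ H u1 ∧ H u1 ≤ b) (h2 : a ≤ H u2 ∧ H u2 ≤ b) (h3 : a ≤ H u3 ∧ H u3 ≤ b)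
    (h4 : a ≤ H u4 ∧ H u4 ≤ b)
    (k12 : |F u1 - F u2| + |G u1 - G u2| ≤ |H u1 - H u2|)
    (k13 : |F u1 - F u3| + |G u1 - G u3| ≤ |H u1 - H u3|)
    (k14 : |F u1 - F u4| + |G u1 - G u4| ≤ |H u1 - H u4|)
    (k23 : |F u2 - F u3| + |G u2 - G u3| ≤ |H u2 - H u3|)
    (k24 : |F u2 - F u4| + |G u2 - G u4| ≤ |H u2 - H u4|)
    (k34 : |F u3 - F u4| + |G u3 - G u4| ≤ |H u3 - H u4|) :
    |F u1 - F u2| + |G u3 - G u4| ≤ b - a := by
  have t1 : |F u1 - F u2| ≤ |F u1 - F u3| + |F u2 - F u3| := by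
    rw [abs_sub_comm (F u2)]; exact abs_sub_le _ _ _
  have t2 : |F u1 - F u2| ≤ |F u1 - F u4| + |F u2 - F u4| := by
    rw [abs_sub_comm (F u2)]; exact abs_sub_le _ _ _
  have t3 : |F u1 - F u4| ≤ |F u1 - F u3| + |F u3 - F u4| := abs_sub_le _ _ _
  have t4 : |F u2 - F u4| ≤ |F u2 - F u3| + |F u3 - F u4| := abs_sub_le _ _ _
  have s1 : |G u3 - G u4| ≤ |G u1 - G u3| + |G u1 - G u4| := by
    rw [abs_sub_comm (G u1) (G u3)]; exact abs_sub_le _ _ _
  have s2 : |G u3 - G u4| ≤ |G u2 - G u3| + |G u2 - G u4| := by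
    rw [abs_sub_comm (G u2) (G u3)]; exact abs_sub_le _ _ _
  have s3 : |G u1 - G u4| ≤ |G u1 - G u2| + |G u2 - G u4| := abs_sub_le _ _ _
  have s4 : |G u2 - G u4| ≤ |G u1 - G u2| + |G u1 - G u4| := by
    rw [abs_sub_comm (G u1) (G u2)]; exact abs_sub_le _ _ _
  have n1 := abs_nonneg (F u1 - F u2)
  have n2 := abs_nonneg (F u1 - F u3)
  have n3 := abs_nonneg (F u1 - F u4)
  have n4 := abs_nonneg (F u2 - F u3)
  have n5 := abs_nonneg (F u2 - F u4)
  have n6 := abs_nonneg (F u3 - F u4)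
  have m1 := abs_nonneg (G u1 - G u2)
  have m2 := abs_nonneg (G u1 - G u3)
  have m3 := abs_nonneg (G u1 - G u4)
  have m4 := abs_nonneg (G u2 - G u3)
  have m5 := abs_nonneg (G u2 - G u4)
  have m6 := abs_nonneg (G u3 - G u4)
  obtain ⟨h1, h1'⟩ := h1
  obtain ⟨h2, h2'⟩ := h2
  obtain ⟨h3, h3'⟩ := h3
  obtain ⟨h4, h4'⟩ := h4
  rcases abs_cases (H u1 - H u2) with ⟨e12, c12⟩ | ⟨e12, c12⟩ <;>
  rcases abs_cases (H u1 - H u3) with ⟨e13, c13⟩ | ⟨e13, c13⟩ <;>
  rcases abs_cases (H u1 - H u4) with ⟨e14, c14⟩ | ⟨e14, c14⟩ <;>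
  rcases abs_cases (H u2 - H u3) with ⟨e23, c23⟩ | ⟨e23, c23⟩ <;>
  rcases abs_cases (H u2 - H u4) with ⟨e24, c24⟩ | ⟨e24, c24⟩ <;>
  rcases abs_cases (H u3 - H u4) with ⟨e34, c34⟩ | ⟨e34, c34⟩ <;>
  linarith

theorem vol_image_le_iSup {α : Type*} (S : Set α) (f : α → ℝ) :
    volume (f '' S) ≤ ⨆ u : S × S, ENNReal.ofReal |f u.1 - f u.2| := by
  refine (Real.volume_le_diam _).trans (ediam_le ?_)
  rintro _ ⟨x, hx, rfl⟩ _ ⟨y, hy, rfl⟩
  rw [edist_dist, Real.dist_eq]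
  exact le_iSup (fun u : S × S => ENNReal.ofReal |f u.1 - f u.2|) (⟨x, hx⟩, ⟨y, hy⟩)

/-- One dimensional comparison of outer measures of images. -/
theorem one_dim {α : Type*} (Γ : Set α) (f g h : α → ℝ) (c1 c2 : ℝ) (hc1 : 0 ≤ c1)
    (hc2 : 0 ≤ c2)
    (hk : ∀ a ∈ Γ, ∀ b ∈ Γ, c1 * |f a - f b| + c2 * |g a - g b| ≤ |h a - h b|) :
    ENNReal.ofReal c1 * volume (f '' Γ) + ENNReal.ofReal c2 * volume (g '' Γ)
      ≤ volume (h '' Γ) := by
  set ν : OuterMeasure ℝ := OuterMeasure.map h (OuterMeasure.restrict Γ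
    (ENNReal.ofReal c1 • OuterMeasure.comap f (volume : Measure ℝ).toOuterMeasure
      + ENNReal.ofReal c2 • OuterMeasure.comap g (volume : Measure ℝ).toOuterMeasure)) with hν
  have hνT : ∀ T : Set ℝ, ν T = ENNReal.ofReal c1 * volume (f '' (h ⁻¹' T ∩ Γ))
      + ENNReal.ofReal c2 * volume (g '' (h ⁻¹' T ∩ Γ)) := by
    intro T
    simp [hν]
  have hle : ν ≤ StieltjesFunction.id.outer := by
    refine OuterMeasure.le_ofFunction.2 fun T => ?_
    rw [StieltjesFunction.length_eq]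
    refine le_iInf fun a => le_iInf fun b => le_iInf fun hT => ?_
    have hT' : T ⊆ Ioc a b := by
      intro x hx
      exact hT ⟨hx, by simp [botSet]⟩
    rw [hνT]
    set S := h ⁻¹' T ∩ Γ with hS
    rcases S.eq_empty_or_nonempty with hE | hN
    · simp [hE]
    have : Nonempty S := hN.to_subtype
    refine (add_le_add (mul_le_mul_right (vol_image_le_iSup S f) _)
      (mul_le_mul_right (vol_image_le_iSup S g) _)).trans ?_
    rw [ENNReal.mul_iSup, ENNReal.mul_iSup]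
    refine ENNReal.iSup_add_iSup_le fun u w => ?_
    rw [← ENNReal.ofReal_mul hc1, ← ENNReal.ofReal_mul hc2,
      ← ENNReal.ofReal_add (by positivity) (by positivity)]
    refine ENNReal.ofReal_le_ofReal ?_
    have hk' : ∀ x : S, ∀ y : S, |c1 * f x - c1 * f y| + |c2 * g x - c2 * g y| ≤ |h x - h y| := by
      intro x y
      rw [← mul_sub, ← mul_sub, abs_mul, abs_mul, abs_of_nonneg hc1, abs_of_nonneg hc2]
      exact hk x x.2.2 y y.2.2
    have hm : ∀ x : S, a ≤ h x ∧ h x ≤ b := fun x =>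
      ⟨(hT' x.2.1).1.le, (hT' x.2.1).2⟩
    have := four_point (fun x : S => c1 * f x) (fun x : S => c2 * g x) (fun x : S => h x) a b
      u.1 u.2 w.1 w.2 (hm _) (hm _) (hm _) (hm _) (hk' _ _) (hk' _ _) (hk' _ _) (hk' _ _)
      (hk' _ _) (hk' _ _)
    simp only [← mul_sub, abs_mul, abs_of_nonneg hc1, abs_of_nonneg hc2] at this
    simpa using this
  have h1 := hle (h '' Γ)
  rw [hνT] at h1
  have e : h ⁻¹' (h '' Γ) ∩ Γ = Γ :=
    inter_eq_right.2 fun x hx => mem_image_of_mem h hx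
  rw [e] at h1
  refine h1.trans_eq ?_
  rw [Real.volume_val, StieltjesFunction.measure_def]
  rfl

/-- The real estimate behind the cell geometry. -/
theorem real_est (al be t τ σ κ X Y e1 e2 : ℝ) (hκ : 0 < κ) (hκ1 : κ < 1 / 4)
    (hab : 0 ≤ al * be) (ht : κ ≤ t) (ht' : t ≤ 1 - κ) (hτ : 0 ≤ τ) (hτ' : τ ≤ κ ^ 2)
    (hσ : 0 ≤ σ) (hσ' : σ ≤ κ ^ 2) (hX : X = (1 + τ) * al - τ * be + e1) (he1 : |e1| ≤ κ * |X|)
    (hY : Y = (1 + σ) * be - σ * al + e2) (he2 : |e2| ≤ κ * |Y|) :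
    (1 - κ) * ((1 - t) * |X| + t * |Y|) ≤ (1 + κ) * |(1 - t) * al + t * be| := by
  have hA := abs_nonneg al
  have hB := abs_nonneg be
  have e : |(1 - t) * al + t * be| = (1 - t) * |al| + t * |be| := by
    have h0 : 0 ≤ ((1 - t) * al) * (t * be) := by
      have : ((1 - t) * al) * (t * be) = ((1 - t) * t) * (al * be) := by ring
      rw [this]
      exact mul_nonneg (mul_nonneg (by linarith) (by linarith)) hab
    rw [(abs_add_eq_add_abs_iff _ _).2 (mul_nonneg_iff.1 h0), abs_mul, abs_mul,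
      abs_of_nonneg (by linarith : (0 : ℝ) ≤ 1 - t), abs_of_nonneg (by linarith : (0 : ℝ) ≤ t)]
  have bX : |X| ≤ (1 + τ) * |al| + τ * |be| + |e1| := by
    rw [hX]
    refine (abs_add_le _ _).trans (add_le_add_left ((abs_sub _ _).trans_eq ?_) _)
    rw [abs_mul, abs_mul, abs_of_nonneg (by linarith : (0 : ℝ) ≤ 1 + τ), abs_of_nonneg hτ]
  have bY : |Y| ≤ (1 + σ) * |be| + σ * |al| + |e2| := by
    rw [hY]
    refine (abs_add_le _ _).trans (add_le_add_left ((abs_sub _ _).trans_eq ?_) _)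
    rw [abs_mul, abs_mul, abs_of_nonneg (by linarith : (0 : ℝ) ≤ 1 + σ), abs_of_nonneg hσ]
  have cX : (1 - κ) * |X| ≤ (1 + κ ^ 2) * |al| + κ ^ 2 * |be| := by
    nlinarith [mul_le_mul_of_nonneg_right hτ' hA, mul_le_mul_of_nonneg_right hτ' hB]
  have cY : (1 - κ) * |Y| ≤ (1 + κ ^ 2) * |be| + κ ^ 2 * |al| := by
    nlinarith [mul_le_mul_of_nonneg_right hσ' hA, mul_le_mul_of_nonneg_right hσ' hB]
  have dX := mul_le_mul_of_nonneg_left cX (by linarith : (0 : ℝ) ≤ 1 - t)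
  have dY := mul_le_mul_of_nonneg_left cY (by linarith : (0 : ℝ) ≤ t)
  have k1 : κ ^ 2 * |al| ≤ κ * (1 - t) * |al| :=
    mul_le_mul_of_nonneg_right (by nlinarith) hA
  have k2 : κ ^ 2 * |be| ≤ κ * t * |be| :=
    mul_le_mul_of_nonneg_right (by nlinarith) hB
  rw [e]
  nlinarith

/-- An affine function without zero in an open interval has end values of the same sign. -/
theorem same_sign (al be : ℝ) (h : ∀ t : ℝ, 0 < t → t < 1 → (1 - t) * al + t * be ≠ 0) :
    0 ≤ al * be := by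
  by_contra hc
  push Not at hc
  have hne : al - be ≠ 0 := by
    intro h0
    have : al = be := by linarith
    rw [this] at hc
    nlinarith [mul_self_nonneg be]
  refine h (al / (al - be)) ?_ ?_ ?_
  · rcases mul_neg_iff.1 hc with ⟨h1, h2⟩ | ⟨h1, h2⟩
    · exact div_pos h1 (by linarith)
    · exact div_pos_of_neg_of_neg h1 (by linarith)
  · rcases mul_neg_iff.1 hc with ⟨h1, h2⟩ | ⟨h1, h2⟩
    · exact (div_lt_one (by linarith)).2 (by linarith)
    · exact (div_lt_one_of_neg (by linarith)).2 (by linarith)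
  · field_simp
    ring

/-- Slope of a segment. -/
noncomputable def sl (g : ℂ × ℂ) : ℝ := (g.2.im - g.1.im) / (g.2.re - g.1.re)

/-- Height of the line of a segment above a given abscissa. -/
noncomputable def ht (s : ℝ) (g : ℂ × ℂ) : ℝ := g.1.im + (s - g.1.re) * sl g

theorem ht_mem (s : ℝ) (g : ℂ × ℂ) (h1 : g.1.re < s) (h2 : s < g.2.re) :
    (⟨s, ht s g⟩ : ℂ) ∈ openSegment ℝ g.1 g.2 := by
  have hL : 0 < g.2.re - g.1.re := by linarith
  refine ⟨(g.2.re - s) / (g.2.re - g.1.re), (s - g.1.re) / (g.2.re - g.1.re),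
    div_pos (by linarith) hL, div_pos (by linarith) hL, by field_simp; ring, ?_⟩
  apply Complex.ext
  · simp only [Complex.add_re, Complex.smul_re, smul_eq_mul]
    field_simp
    ring
  · simp only [Complex.add_im, Complex.smul_im, smul_eq_mul, ht, sl]
    field_simp
    ring

theorem ht_snd (g : ℂ × ℂ) (h : g.1.re < g.2.re) : ht g.2.re g = g.2.im := by
  have hL : g.2.re - g.1.re ≠ 0 := (sub_pos.2 h).ne'
  simp only [ht, sl]
  field_simp
  ring

theorem abs_sl_le (g : ℂ × ℂ) (ε : ℝ) (h : g.1.re < g.2.re)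
    (hs : |(g.2 - g.1).im| ≤ ε * (g.2 - g.1).re) : |sl g| ≤ ε := by
  have hL : 0 < g.2.re - g.1.re := by linarith
  simp only [Complex.sub_im, Complex.sub_re] at hs
  rw [sl, abs_div, abs_of_pos hL, div_le_iff₀ hL]
  exact hs

/-- The cell estimate for two segments. -/
theorem cell_est (g g' : ℂ × ℂ) (p q r ε Λ κ t : ℝ) (hpq : p < q)
    (hκ : 0 < κ) (hκ1 : κ < 1 / 4) (hεΛ : ε * Λ ≤ κ) (hr : r ≤ κ ^ 2 * (q - p))
    (hg : p - r ≤ g.1.re ∧ g.1.re ≤ p ∧ q ≤ g.2.re ∧ g.2.re ≤ q + r ∧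
      |(g.2 - g.1).im| ≤ ε * (g.2 - g.1).re)
    (hg' : p - r ≤ g'.1.re ∧ g'.1.re ≤ p ∧ q ≤ g'.2.re ∧ g'.2.re ≤ q + r ∧
      |(g'.2 - g'.1).im| ≤ ε * (g'.2 - g'.1).re)
    (hl : |g.1.re - g'.1.re| ≤ Λ * |g.1.im - g'.1.im| ∧
      |g.2.re - g'.2.re| ≤ Λ * |g.2.im - g'.2.im|)
    (hd : Disjoint (openSegment ℝ g.1 g.2) (openSegment ℝ g'.1 g'.2))
    (ht1 : κ ≤ t) (ht2 : t ≤ 1 - κ) :
    (1 - κ) * ((1 - t) * |g.1.im - g'.1.im| + t * |g.2.im - g'.2.im|)
      ≤ (1 + κ) * |ht (p + t * (q - p)) g - ht (p + t * (q - p)) g'| := by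
  obtain ⟨a1, a2, a3, a4, a5⟩ := hg
  obtain ⟨b1, b2, b3, b4, b5⟩ := hg'
  have hD : 0 < q - p := by linarith
  have hL : g.1.re < g.2.re := by linarith
  have hL' : g'.1.re < g'.2.re := by linarith
  have hs' := abs_sl_le g' ε hL' b5
  set al := ht p g - ht p g' with hal
  set be := ht q g - ht q g' with hbe
  have haff : ∀ u : ℝ, ht (p + u * (q - p)) g - ht (p + u * (q - p)) g'
      = (1 - u) * al + u * be := by
    intro u
    simp only [hal, hbe, ht]
    ring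
  have hab : 0 ≤ al * be := by
    refine same_sign al be fun u hu hu' h0 => ?_
    rw [← haff, sub_eq_zero] at h0
    have hu1 : 0 < u * (q - p) := mul_pos hu hD
    have hu2 : u * (q - p) < q - p := by nlinarith
    have m1 := ht_mem (p + u * (q - p)) g (by linarith) (by linarith)
    have m2 := ht_mem (p + u * (q - p)) g' (by linarith) (by linarith)
    rw [← h0] at m2
    exact Set.disjoint_left.1 hd m1 m2
  rw [haff]
  have hτ := haff (-((p - g.1.re) / (q - p)))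
  have hσ := haff (1 + (g.2.re - q) / (q - p))
  have e1 : p + -((p - g.1.re) / (q - p)) * (q - p) = g.1.re := by field_simp; ring
  have e2 : p + (1 + (g.2.re - q) / (q - p)) * (q - p) = g.2.re := by field_simp; ring
  rw [e1] at hτ
  rw [e2, ht_snd g hL] at hσ
  have hb := ht_snd g' hL'
  refine real_est al be t ((p - g.1.re) / (q - p)) ((g.2.re - q) / (q - p)) κ _ _
    ((g.1.re - g'.1.re) * sl g') ((g.2.re - g'.2.re) * sl g') hκ hκ1 hab ht1 ht2
    (div_nonneg (by linarith) hD.le) ((div_le_iff₀ hD).2 (by linarith))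
    (div_nonneg (by linarith) hD.le) ((div_le_iff₀ hD).2 (by linarith)) ?_ ?_ ?_ ?_
  · simp only [ht] at hτ
    linarith
  · rw [abs_mul]
    calc |g.1.re - g'.1.re| * |sl g'| ≤ Λ * |g.1.im - g'.1.im| * ε :=
          mul_le_mul hl.1 hs' (abs_nonneg _) ((abs_nonneg _).trans hl.1)
      _ = ε * Λ * |g.1.im - g'.1.im| := by ring
      _ ≤ κ * |g.1.im - g'.1.im| := mul_le_mul_of_nonneg_right hεΛ (abs_nonneg _)
  · simp only [ht] at hσ hb
    linarith
  · rw [abs_mul]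
    calc |g.2.re - g'.2.re| * |sl g'| ≤ Λ * |g.2.im - g'.2.im| * ε :=
          mul_le_mul hl.2 hs' (abs_nonneg _) ((abs_nonneg _).trans hl.2)
      _ = ε * Λ * |g.2.im - g'.2.im| := by ring
      _ ≤ κ * |g.2.im - g'.2.im| := mul_le_mul_of_nonneg_right hεΛ (abs_nonneg _)

/-- The area of a measurable plane set is the integral of the lengths of its vertical slices. -/
theorem vol_eq_slices (W : Set ℂ) (hW : MeasurableSet W) :
    volume W = ∫⁻ s : ℝ, volume {a : ℝ | (⟨s, a⟩ : ℂ) ∈ W} ∧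
      Measurable fun s : ℝ => volume {a : ℝ | (⟨s, a⟩ : ℂ) ∈ W} := by
  have hm : MeasurableSet (Complex.measurableEquivRealProd.symm ⁻¹' W) :=
    Complex.measurableEquivRealProd.symm.measurable hW
  constructor
  · rw [← (Complex.volume_preserving_equiv_real_prod.symm _).measure_preimage hW.nullMeasurableSet,
      Measure.volume_eq_prod, Measure.prod_apply hm]
    rfl
  · exact measurable_measure_prodMk_left (ν := (volume : Measure ℝ)) hm

/-- Area swept by a family of disjoint, nearly horizontal segments. -/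
theorem area : SArea := by
  intro Γ W p q r ε Λ κ hpq _ _ _ hκ hκ1 hεΛ hr hg hl hd hW hsub
  obtain ⟨hV, hVm⟩ := vol_eq_slices W hW
  set V : ℝ → ℝ≥0∞ := fun s => volume {a : ℝ | (⟨s, a⟩ : ℂ) ∈ W} with hVdef
  set A := volume ((fun g : ℂ × ℂ => g.1.im) '' Γ)
  set B := volume ((fun g : ℂ × ℂ => g.2.im) '' Γ)
  set c : ℝ := (1 - κ) / (1 + κ) with hc
  have hc0 : 0 ≤ c := div_nonneg (by linarith) (by linarith)
  have hD : 0 < q - p := by linarith
  have slice : ∀ t : ℝ, κ ≤ t → t ≤ 1 - κ →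
      ENNReal.ofReal (c * (1 - t)) * A + ENNReal.ofReal (c * t) * B ≤ V (p + t * (q - p)) := by
    intro t ht1 ht2
    refine (one_dim Γ (fun g : ℂ × ℂ => g.1.im) (fun g : ℂ × ℂ => g.2.im)
      (ht (p + t * (q - p))) _ _ (mul_nonneg hc0 (by linarith)) (mul_nonneg hc0 (by linarith))
      fun g hgΓ g' hg'Γ => ?_).trans (measure_mono ?_)
    · by_cases hgg : g = g'
      · subst hgg
        simp
      have := cell_est g g' p q r ε Λ κ t hpq hκ hκ1 hεΛ hr (hg g hgΓ) (hg g' hg'Γ)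
        (hl g hgΓ g' hg'Γ) (hd g hgΓ g' hg'Γ hgg) ht1 ht2
      have h1 : (0 : ℝ) < 1 + κ := by linarith
      have e : c * (1 - t) * |g.1.im - g'.1.im| + c * t * |g.2.im - g'.2.im|
          = (1 - κ) * ((1 - t) * |g.1.im - g'.1.im| + t * |g.2.im - g'.2.im|) / (1 + κ) := by
        rw [hc]
        field_simp
      rw [e, div_le_iff₀ h1]
      linarith
    · rintro _ ⟨g, hgΓ, rfl⟩
      obtain ⟨-, a2, a3, -, -⟩ := hg g hgΓ
      have hu1 : 0 < t * (q - p) := mul_pos (by linarith) hD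
      have hu2 : t * (q - p) < q - p := by nlinarith
      exact hsub g hgΓ (ht_mem _ g (by linarith) (by linarith))
  have pair : ∀ s ∈ Icc (p + κ * (q - p)) (q - κ * (q - p)),
      ENNReal.ofReal c * (A + B) ≤ V s + V (p + q - s) := by
    intro s hs
    have ht1 : κ ≤ (s - p) / (q - p) := (le_div_iff₀ hD).2 (by linarith [hs.1])
    have ht2 : (s - p) / (q - p) ≤ 1 - κ := (div_le_iff₀ hD).2 (by linarith [hs.2])
    set t := (s - p) / (q - p) with htdef
    have h1 := slice t ht1 ht2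
    have h2 := slice (1 - t) (by linarith) (by linarith)
    have e1 : p + t * (q - p) = s := by rw [htdef]; field_simp; ring
    have e2 : p + (1 - t) * (q - p) = p + q - s := by linarith
    rw [e1] at h1
    rw [e2, sub_sub_cancel] at h2
    refine le_trans (le_of_eq ?_) (add_le_add h1 h2)
    have e3 : ENNReal.ofReal c = ENNReal.ofReal (c * (1 - t)) + ENNReal.ofReal (c * t) := by
      rw [← ENNReal.ofReal_add (mul_nonneg hc0 (by linarith)) (mul_nonneg hc0 (by linarith))]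
      congr 1
      ring
    rw [e3]
    ring
  have two : ENNReal.ofReal c * (A + B) * ENNReal.ofReal ((1 - 2 * κ) * (q - p))
      ≤ 2 * volume W := by
    calc ENNReal.ofReal c * (A + B) * ENNReal.ofReal ((1 - 2 * κ) * (q - p))
        = ∫⁻ _ in Icc (p + κ * (q - p)) (q - κ * (q - p)), ENNReal.ofReal c * (A + B) := by
          rw [setLIntegral_const, Real.volume_Icc]
          congr 2
          ring
      _ ≤ ∫⁻ s in Icc (p + κ * (q - p)) (q - κ * (q - p)), (V s + V (p + q - s)) :=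
          setLIntegral_mono' measurableSet_Icc pair
      _ ≤ ∫⁻ s, (V s + V (p + q - s)) := setLIntegral_le_lintegral _ _
      _ = 2 * volume W := by
          rw [lintegral_add_left hVm, lintegral_sub_left_eq_self V (p + q), hV, two_mul]
  have h2 : (2 : ℝ≥0∞) ≠ 0 := two_ne_zero
  have h2' : (2 : ℝ≥0∞) ≠ ⊤ := ENNReal.ofNat_ne_top
  refine (ENNReal.mul_le_mul_iff_right h2 h2').1 (le_trans ?_ two)
  rw [← mul_assoc, mul_right_comm (ENNReal.ofReal c)]
  refine mul_le_mul_left ?_ _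
  rw [← ENNReal.ofReal_mul hc0, ← ENNReal.ofReal_ofNat 2, ← ENNReal.ofReal_mul (by norm_num)]
  refine ENNReal.ofReal_le_ofReal ?_
  have h1 : (0 : ℝ) < 1 + κ := by linarith
  have key : 1 - 4 * κ ≤ c * (1 - 2 * κ) := by
    rw [hc, div_mul_eq_mul_div, le_div_iff₀ h1]
    nlinarith
  have := mul_le_mul_of_nonneg_right key hD.le
  linarith

end Pool.Agent.MP_515557_an.H93
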